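import Mathlib
import Pool.Agent.Helper71.EMTBase

/-!
# `C_n ∪ C_n` is edge-magic total for every even `n ≥ 4`

For `n = 2p + 4` with `p ≥ 1` an explicit labeling with constant `10p + 24` is given; for `n = 4`
a labeling with constant `22`.
-/

set_option autoImplicit false

namespace Pool.Agent.Results.MP_87e2cd_co.TwoEvenCycles

open SimpleGraph Pool.Agent.Helper71.EMT

/-! ### The labels of the vertices of the two cycles, in cyclic order -/

def fA (p k : ℕ) : ℕ :=
  if k < 2 * p then (if k % 2 = 0 then 2 + k / 2 else 2 * p + 6 + k / 2)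
  else if k = 2 * p then 3 * p + 7
  else if k = 2 * p + 1 then 4 * p + 9
  else if k = 2 * p + 2 then 1
  else 6 * p + 12

def gA (p k : ℕ) : ℕ :=
  if k < 2 * p then (if k % 2 = 0 then 3 * p + 9 + k / 2 else p + 4 + k / 2)
  else if k = 2 * p then 2 * p + 4
  else if k = 2 * p + 1 then 6 * p + 15
  else if k = 2 * p + 2 then 3 * p + 6
  else p + 2

theorem two_even (p : ℕ) (hp : 1 ≤ p) :
    IsEdgeMagicTotal (cycleGraph (2 * p + 4) ⊕g cycleGraph (2 * p + 4)) := by
  apply emt_of_cover' (2 * p + 4) (2 * p + 4) (10 * p + 24) (by omega) (by omega) (fA p) (gA p)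
  intro L h1 h2
  by_cases c1 : L = 1
  · exact Or.inl ⟨2 * p + 2, by omega, by unfold fA; split_ifs <;> omega⟩
  by_cases c2 : L ≤ p + 1
  · exact Or.inl ⟨2 * (L - 2), by omega, by unfold fA; split_ifs <;> omega⟩
  by_cases c3 : L = p + 2
  · exact Or.inr (Or.inl ⟨2 * p + 3, by omega, by unfold gA; split_ifs <;> omega⟩)
  by_cases c4 : L = p + 3
  · exact Or.inr (Or.inr (Or.inr (Or.inl ⟨2 * p + 1, by omega, by unfold gA; split_ifs <;> omega⟩)))
  by_cases c5 : L ≤ 2 * p + 3
  · exact Or.inr (Or.inl ⟨2 * (L - p - 4) + 1, by omega, by unfold gA; split_ifs <;> omega⟩)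
  by_cases c6 : L = 2 * p + 4
  · exact Or.inr (Or.inl ⟨2 * p, by omega, by unfold gA; split_ifs <;> omega⟩)
  by_cases c7 : L = 2 * p + 5
  · exact Or.inr (Or.inr (Or.inr (Or.inl ⟨2 * p, by omega, by unfold gA; split_ifs <;> omega⟩)))
  by_cases c8 : L ≤ 3 * p + 5
  · exact Or.inl ⟨2 * (L - 2 * p - 6) + 1, by omega, by unfold fA; split_ifs <;> omega⟩
  by_cases c9 : L = 3 * p + 6
  · exact Or.inr (Or.inl ⟨2 * p + 2, by omega, by unfold gA; split_ifs <;> omega⟩)
  by_cases c10 : L = 3 * p + 7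
  · exact Or.inl ⟨2 * p, by omega, by unfold fA; split_ifs <;> omega⟩
  by_cases c11 : L = 3 * p + 8
  · exact Or.inr (Or.inr (Or.inl ⟨2 * p, by omega, by unfold fA; split_ifs <;> omega⟩))
  by_cases c12 : L ≤ 4 * p + 8
  · exact Or.inr (Or.inl ⟨2 * (L - 3 * p - 9), by omega, by unfold gA; split_ifs <;> omega⟩)
  by_cases c13 : L = 4 * p + 9
  · exact Or.inl ⟨2 * p + 1, by omega, by unfold fA; split_ifs <;> omega⟩
  by_cases c14 : L = 4 * p + 10
  · refine Or.inr (Or.inr (Or.inr (Or.inr (Or.inl ?_))))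
    unfold fA; split_ifs <;> omega
  by_cases c15 : L = 4 * p + 11
  · exact Or.inr (Or.inr (Or.inl ⟨2 * p + 2, by omega, by unfold fA; split_ifs <;> omega⟩))
  by_cases c16 : L = 4 * p + 12
  · exact Or.inr (Or.inr (Or.inl ⟨2 * p - 1, by omega, by unfold fA; split_ifs <;> omega⟩))
  by_cases c17 : L ≤ 6 * p + 11
  · exact Or.inr (Or.inr (Or.inr (Or.inl
      ⟨6 * p + 11 - L, by omega, by unfold gA; split_ifs <;> omega⟩)))
  by_cases c18 : L = 6 * p + 12
  · exact Or.inl ⟨2 * p + 3, by omega, by unfold fA; split_ifs <;> omega⟩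
  by_cases c19 : L = 6 * p + 13
  · refine Or.inr (Or.inr (Or.inr (Or.inr (Or.inr ?_))))
    unfold gA; split_ifs <;> omega
  by_cases c20 : L = 6 * p + 14
  · exact Or.inr (Or.inr (Or.inl ⟨2 * p + 1, by omega, by unfold fA; split_ifs <;> omega⟩))
  by_cases c21 : L = 6 * p + 15
  · exact Or.inr (Or.inl ⟨2 * p + 1, by omega, by unfold gA; split_ifs <;> omega⟩)
  by_cases c22 : L = 6 * p + 16
  · exact Or.inr (Or.inr (Or.inr (Or.inl ⟨2 * p + 2, by omega, by unfold gA; split_ifs <;> omega⟩)))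
  by_cases c23 : L = 6 * p + 17
  · exact Or.inr (Or.inr (Or.inr (Or.inl ⟨2 * p - 1, by omega, by unfold gA; split_ifs <;> omega⟩)))
  · exact Or.inr (Or.inr (Or.inl
      ⟨8 * p + 16 - L, by omega, by unfold fA; split_ifs <;> omega⟩))

theorem two_four : IsEdgeMagicTotal (cycleGraph 4 ⊕g cycleGraph 4) := by
  apply emt_of_cover 4 4 22 (by omega) (by omega) (fun i => [1, 5, 3, 6].getD i 0)
    (fun i => [2, 8, 4, 11].getD i 0)
  intro L h1 h2
  interval_cases L <;> decide

/-- For every even `n ≥ 4` (in particular for every `n ≥ 4` divisible by `4`) the disjoint union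
of two cycles of length `n` is edge-magic total. -/
theorem result (n : ℕ) (hn : 4 ≤ n) (heven : Even n) :
    IsEdgeMagicTotal (cycleGraph n ⊕g cycleGraph n) := by
  obtain ⟨k, rfl⟩ := heven
  rcases Nat.lt_or_ge k 3 with h | h
  · have : k = 2 := by omega
    subst this
    exact two_four
  · obtain ⟨p, rfl⟩ : ∃ p, k = p + 2 := ⟨k - 2, by omega⟩
    have h1 : p + 2 + (p + 2) = 2 * p + 4 := by ring
    rw [h1]
    exact two_even p (by omega)

end Pool.Agent.Results.MP_87e2cd_co.TwoEvenCycles
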